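import Pool.Agent.Helper44.SE.Out

/-!
# The Tate conjecture is decided by the endomorphisms of indecomposable motives

Let `𝓜` be a theory of pure motives over a field with absolute Galois group `Γ`, with Betti
realizations `W M` (rational vector spaces, with chosen bases) and `ℓ`-adic realizations
`V M = ℚ_ℓ ⊗ W M`, on which `Γ` acts. We suppose what is known for Grothendieck motives modulo homological equivalence over number
fields: idempotents have images, there are motives of homomorphisms, the realizations are graded by the
weights, Frobenius elements are dense, they are pure, and the traces of their products with endomorphisms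
are rational, and the Hodge theoretic polarizations. We do not suppose that the category or the Galois
representations are semisimple, nor that the Künneth projectors are algebraic.

`Tate M N` is the question for the motives `M` and `N` (the injectivity is clear): all `Γ`-equivariant
maps from `V M` to `V N` are `ℚ_ℓ`-combinations of morphisms. So `Tate 1 M` is the Tate conjecture for
the algebraic cycles in `M`.

(0) If `P` is indecomposable and `Tate P P` holds, then `P` is pure and its endomorphisms form a
division algebra.

(1) If moreover `P` has rank at least two, then `Γ` fixes no nonzero vector of `V P`. So for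
indecomposable motives of rank at least two, `Tate P P` implies `Tate 1 P`.

(2) `Tate M N` holds if for all indecomposable direct summands `P` of the motive of homomorphisms from
`M` to `N` (which meet the weight zero), `Tate P P` holds, if the rank of `P` is at least two, and
`Tate 1 P`, if the rank is one.

(3) So the Tate conjecture for all `M`, `N` is equivalent to `Tate P P` for the indecomposable motives
`P` of rank at least two which meet the weight zero, and `Tate 1 P` for the motives of rank one.

The proof of (1). By `Tate P P`, the weight projectors and the adjoints of endomorphisms for the
polarization are endomorphisms of `P`. So `P` is pure of weight zero if there is an invariant vector `x`,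
and the algebra `D` of endomorphisms of `P` is a division algebra (by Fitting's lemma). The form gives an
invariant linear function `φ`, and `e = φ(·) x` commutes with `Γ`, so it is in `D_ℓ = ℚ_ℓ ⊗ D`. As
nonzero elements of `D_ℓ` do not kill rational vectors, the image of `e` being a line gives: `W P` has
dimension one over `D`, and `D` is commutative. The traces of the products of the Frobenius element `F`
with elements of `D` are rational, so there is `c ∈ D` with the same traces; `e F = e` gives `e c = e`
and so `c = 1`. As `D` is its own commutant, `F ∈ D_ℓ`, so `F = 1`. By density `Γ` acts trivially, and
now `Tate P P` shows that all endomorphisms of the vector space `V P` are in `D_ℓ`, whose dimension is at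
most the dimension of `V P`.
-/

set_option autoImplicit false

namespace Pool.Agent.Results.MP_3703a7_ag.IndecomposableEndomorphisms

open Pool.Agent.Helper44.SE

/-- **The Tate conjecture is decided by the endomorphisms of indecomposable motives and by the motives
of rank one.** -/
theorem result {ℓ : ℕ} [Fact ℓ.Prime] {Γ : Type} [Group Γ] [TopologicalSpace Γ]
    (𝓜 : Theory ℓ Γ) (h : 𝓜.IsTheory) :
    -- (0) purity and division algebra
    (∀ P, 𝓜.Indec P → 𝓜.Tate P P → 𝓜.Pure P ∧ 𝓜.Simple P) ∧
    -- (1) no invariants
    (∀ P, 𝓜.Indec P → 2 ≤ 𝓜.rank P → 𝓜.Tate P P → 𝓜.NoInvariants P) ∧
    -- (2) two motives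
    (∀ M N, (∀ P, 𝓜.Indec P → 𝓜.MeetsWeightZero P → 𝓜.Summand P (𝓜.hom M N) → 𝓜.Test P) →
      𝓜.Tate M N) ∧
    -- (3) all motives
    ((∀ M N, 𝓜.Tate M N) ↔ ∀ P, 𝓜.Indec P → 𝓜.MeetsWeightZero P → 𝓜.Test P) :=
  ⟨fun _ hP hT => out_zero h hP hT, fun _ hP hr hT => out_one h hP hr hT,
    fun _ _ hP => out_two h hP, out_three h⟩

end Pool.Agent.Results.MP_3703a7_ag.IndecomposableEndomorphisms
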