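import Pool.Agent.Helper95.ISO.Four

/-!
# A Tate class is algebraic if and only if its isogenies repeat

`M`, `M'` are pure motives over a number field with integral structures (`p`-adic lattices `T`, `T'`
stable under the Galois group `Γ`), and `φ : T → T'` is a Galois equivariant `ℤ_p`-linear map, that is a
Tate class of `Hom(M, M')`. For every `n` the lattice
`N_n = {(x, y) ∈ T ⊕ T' : y ≡ φ x mod p ^ n}` is stable under the Galois group, so it is an integral
structure of the motive `M ⊕ M'`: we get a sequence of motives `N_0 = M ⊕ M'`, `N_1`, `N_2`, ... and of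
isogenies of degrees powers of `p`. Faltings' method (and its extension to motives by Kato) proves that
`φ` is algebraic by showing, with heights, that only finitely many isomorphism classes occur in such a
sequence.

We prove that the sequence *always* measures the distance between `φ` and the algebraic classes. Suppose
that the algebra `End(M ⊕ M')` is semisimple. There is a constant `C` which depends on `M`, `M'`, their
integral structures and `p`, but not on `φ`, such that:

* if `φ` is algebraic (a `ℚ_p`-combination of realizations of elements of `Hom(M, M')`) then all the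
  motives `N_n` are isomorphic to `M ⊕ M'`;
* if `φ` is not algebraic, let `p ^ (-d)` be its distance to the algebraic classes, i.e. `d` is the
  largest integer such that `φ` is congruent to an algebraic class modulo `p ^ d`. Then
  `N_0, ..., N_d` are isomorphic, and the motives `N_n`, `n ≥ d + C`, are pairwise not isomorphic.

So a Tate class `φ` is algebraic if and only if two of the motives `N_n` with `n ≥ d + C` are isomorphic,
if and only if for every `n₀` there are `m > n ≥ n₀` with `N_n ≅ N_m`: no finiteness of the set of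
isomorphism classes is needed, and there is nothing between `ℕ → one class` and `ℕ → infinitely many
classes, each with a bounded number of terms`. The number of isomorphism classes of the motives
`N_0, ..., N_n` is `n - min(n, d)` up to a constant which does not depend on `φ`.

Semisimplicity of `End(M ⊕ M')` holds for instance if homological and numerical equivalence coincide on
the squares of the underlying varieties (Jannsen); it is a consequence of the conjecture itself.
-/

open Matrix

namespace Pool.Agent.Results.MP_3703a7_ag.IsogenyDichotomy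

/-- The `p`-adic realizations of two pure motives `M`, `M'` with integral structures, in bases `κ`,
`κ'` of the lattices, and of the algebra `A = End(M ⊕ M')` of endomorphisms of the rational motive
`M ⊕ M'`. `Γ` is the Galois group. -/
structure Realization (p : ℕ) [Fact p.Prime] (Γ A κ κ' : Type) [Group Γ] [Ring A] [Fintype κ]
    [DecidableEq κ] [Fintype κ'] [DecidableEq κ'] where
  /-- the Galois action on `M` -/
  gal : Γ →* Matrix κ κ ℚ_[p]
  /-- the Galois action on `M'` -/
  gal' : Γ →* Matrix κ' κ' ℚ_[p]
  /-- the lattices are stable -/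
  integral : ∀ γ i j, ‖gal γ i j‖ ≤ 1
  /-- the lattices are stable -/
  integral' : ∀ γ i j, ‖gal' γ i j‖ ≤ 1
  /-- the realization of the endomorphisms of `M ⊕ M'` -/
  real : A →+* Matrix (κ ⊕ κ') (κ ⊕ κ') ℚ_[p]
  /-- it is injective -/
  injective : Function.Injective real
  /-- endomorphisms commute with the Galois group -/
  equivariant : ∀ a γ, real a * fromBlocks (gal γ) 0 0 (gal' γ) =
    fromBlocks (gal γ) 0 0 (gal' γ) * real a
  /-- the projection to `M` is an endomorphism of `M ⊕ M'` -/
  projection : ∃ e, real e = fromBlocks 1 0 0 0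

variable {p : ℕ} [Fact p.Prime] {Γ A κ κ' : Type} [Group Γ] [Ring A] [Fintype κ] [DecidableEq κ]
  [Fintype κ'] [DecidableEq κ']

/-- The algebraic classes: the image of `Hom(M, M') ⊗ ℚ_p`. The elements of `Hom(M, M')` are the
endomorphisms of `M ⊕ M'` whose matrix has only the block from `M` to `M'`. -/
noncomputable def Realization.algebraic (R : Realization p Γ A κ κ') :
    Submodule ℚ_[p] (Matrix κ' κ ℚ_[p]) :=
  Submodule.span ℚ_[p] {ψ | ∃ a : A, R.real a = fromBlocks 0 0 ψ 0}

/-- An integral Tate class: a Galois equivariant map from the lattice of `M` to the lattice of `M'`. -/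
def Realization.IsTate (R : Realization p Γ A κ κ') (φ : Matrix κ' κ ℚ_[p]) : Prop :=
  (∀ i j, ‖φ i j‖ ≤ 1) ∧ ∀ γ, φ * R.gal γ = R.gal' γ * φ

/-- `φ` and `ψ` are congruent modulo `p ^ n`. -/
def Congruent (φ ψ : Matrix κ' κ ℚ_[p]) (n : ℤ) : Prop := ∀ i j, ‖(φ - ψ) i j‖ ≤ (p : ℝ) ^ (-n)

/-- The lattice `N_n` of the pairs `(x, y)` of integral vectors with `y ≡ φ x` modulo `p ^ n`. -/
noncomputable def lattice (φ : Matrix κ' κ ℚ_[p]) (n : ℕ) : Set (κ ⊕ κ' → ℚ_[p]) :=
  {v | (∀ i, ‖v (Sum.inl i)‖ ≤ 1) ∧
    ∀ j, ‖v (Sum.inr j) - (φ *ᵥ fun i => v (Sum.inl i)) j‖ ≤ (p : ℝ) ^ (-(n : ℤ))}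

/-- The motives with integral structures `(M ⊕ M', N_n)` and `(M ⊕ M', N_m)` are isomorphic: an
automorphism of the rational motive `M ⊕ M'` maps the lattice `N_n` onto `N_m`. -/
def Realization.Isomorphic (R : Realization p Γ A κ κ') (φ : Matrix κ' κ ℚ_[p]) (n m : ℕ) : Prop :=
  ∃ a : Aˣ, (fun v => R.real a *ᵥ v) '' lattice φ n = lattice φ m

/-- **A Tate class is algebraic if and only if the sequence of its isogenies repeats; the constant is
uniform.** -/
theorem result [Algebra ℚ A] [FiniteDimensional ℚ A] [IsSemisimpleRing A]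
    (R : Realization p Γ A κ κ') :
    ∃ C : ℕ, ∀ φ : Matrix κ' κ ℚ_[p], R.IsTate φ →
      (∀ n, ∀ γ, ∀ v ∈ lattice φ n, fromBlocks (R.gal γ) 0 0 (R.gal' γ) *ᵥ v ∈ lattice φ n) ∧
      ((φ ∈ R.algebraic ∧ ∀ n m, R.Isomorphic φ n m) ∨
        (φ ∉ R.algebraic ∧ ∃ d : ℕ, (∃ ψ ∈ R.algebraic, Congruent φ ψ d) ∧
          (∀ ψ ∈ R.algebraic, ¬ Congruent φ ψ (d + 1)) ∧
          (∀ n m, n ≤ d → m ≤ d → R.Isomorphic φ n m) ∧
          ∀ n m, d + C ≤ n → d + C ≤ m → R.Isomorphic φ n m → n = m)) := by
  obtain ⟨C, hC⟩ := Pool.Agent.Helper95.ISO.dichotomy R.real R.injective R.projection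
  refine ⟨C, fun φ hφ => ⟨?_, hC φ hφ.1⟩⟩
  intro n γ
  refine (Pool.Agent.Helper95.ISO.maps_iff φ n _ _ (R.integral γ) (R.integral' γ)).2 ?_
  intro i j
  rw [← hφ.2 γ, sub_self]
  have := (Pool.Agent.Helper95.ISO.pow_pos' (p := p) (-(n : ℤ))).le
  simpa using this

end Pool.Agent.Results.MP_3703a7_ag.IsogenyDichotomy
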