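import Pool.Agent.Helper95.ISO.GapG

/-!
# A gap theorem for isogeny classes of motives, equivalent to the Tate conjecture with semisimplicity

`M` is a pure motive over a number field with an integral structure (a `p`-adic lattice `T` stable under
the Galois group), and its endomorphism algebra `A = End(M)` is semisimple. An integral structure of the
power `M ^ r` is a Galois stable lattice `L` in its `p`-adic realization, and two of them are isomorphic
if an automorphism of the rational motive `M ^ r`, i.e. an element of `GL_r(A)`, maps one onto the other.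

Faltings' method, and Kato's extension of it to motives, deduces the Tate conjecture from the finiteness
of sets of isomorphism classes of integral structures (of bounded height). We prove that the Tate
conjecture for the endomorphisms of `M` at `p`, together with the semisimplicity of the realization, is
*equivalent* to each of the following properties of the `p`-isogeny class of `M ⊕ M`:

* it contains only finitely many isomorphism classes (and then this holds for all the powers of `M`);
* the number of isomorphism classes of the integral structures between `p ^ n T²` and `T²` is not at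
  least `n - n₀` for all `n`, for any constant `n₀`. So this number is either bounded or at least
  `n - n₀`: there is no growth between bounded and linear, and it would be enough for the conjecture to
  prove that it is `o(n)`;
* for every Galois stable subspace `W` of the realization of `M ⊕ M`, Faltings' sequence of lattices
  `L_n = (T² ∩ W) + p ^ n T²` has two isomorphic terms `L_n`, `L_m`, `m > n ≥ n₀`, for every `n₀`. If the
  conjecture fails there is a `W` such that all the `L_n`, `n ≥ n₀`, are pairwise not isomorphic.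
-/

open Matrix

namespace Pool.Agent.Results.MP_3703a7_ag.IsogenyGap

/-- The `p`-adic realization of a pure motive `M` with an integral structure, in a basis `κ` of the
lattice `T`, and of the algebra `A = End(M)` of endomorphisms of the rational motive. `Γ` is the Galois
group. -/
structure Realization (p : ℕ) [Fact p.Prime] (Γ A κ : Type) [Group Γ] [Ring A] [Fintype κ]
    [DecidableEq κ] where
  /-- the Galois action -/
  gal : Γ →* Matrix κ κ ℚ_[p]
  /-- the lattice is stable -/
  integral : ∀ γ i j, ‖gal γ i j‖ ≤ 1
  /-- the realization of the endomorphisms -/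
  real : A →+* Matrix κ κ ℚ_[p]
  /-- it is injective -/
  injective : Function.Injective real
  /-- endomorphisms commute with the Galois group -/
  equivariant : ∀ a γ, real a * gal γ = gal γ * real a

variable {p : ℕ} [Fact p.Prime] {Γ A κ : Type} [Group Γ] [Ring A] [Fintype κ] [DecidableEq κ]

/-- The Tate conjecture for the endomorphisms of `M` at `p`, and semisimplicity: every Galois stable
subspace of the realization has a Galois stable complement, and every Galois equivariant endomorphism is
a `ℚ_p`-combination of realizations of elements of `A`. -/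
def Realization.TateAndSemisimple (R : Realization p Γ A κ) : Prop :=
  (∀ W : Submodule ℚ_[p] (κ → ℚ_[p]), (∀ γ, ∀ v ∈ W, R.gal γ *ᵥ v ∈ W) →
    ∃ W' : Submodule ℚ_[p] (κ → ℚ_[p]), (∀ γ, ∀ v ∈ W', R.gal γ *ᵥ v ∈ W') ∧ IsCompl W W') ∧
  ∀ X : Matrix κ κ ℚ_[p], (∀ γ, X * R.gal γ = R.gal γ * X) →
    X ∈ Submodule.span ℚ_[p] (Set.range R.real)

/-- The Galois action on the realization of the power `M ^ r`. -/
noncomputable def Realization.galPow (R : Realization p Γ A κ) (r : ℕ) (γ : Γ) :
    Matrix (Fin r × κ) (Fin r × κ) ℚ_[p] :=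
  Matrix.of fun x y => if x.1 = y.1 then R.gal γ x.2 y.2 else 0

/-- The realization of the endomorphisms of `M ^ r`: the matrix `X` over `A` gives the block matrix with
the blocks `real (X i j)`. -/
noncomputable def Realization.realPow (R : Realization p Γ A κ) (r : ℕ) :
    Matrix (Fin r) (Fin r) A →+* Matrix (Fin r × κ) (Fin r × κ) ℚ_[p] :=
  ((Matrix.compRingEquiv (Fin r) κ ℚ_[p]) : _ →+* _).comp R.real.mapMatrix

/-- `L` is a lattice: it contains some `p ^ k T` and is contained in `p ^ (-k) T`, `T` the lattice of the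
integral vectors. -/
def IsLattice {ι : Type} (L : Submodule ℤ_[p] (ι → ℚ_[p])) : Prop :=
  ∃ k : ℕ, (∀ v : ι → ℚ_[p], (∀ i, ‖v i‖ ≤ (p : ℝ) ^ (-(k : ℤ))) → v ∈ L) ∧
    ∀ v ∈ L, ∀ i, ‖v i‖ ≤ (p : ℝ) ^ (k : ℤ)

/-- `L` is stable under the Galois group. -/
def Realization.IsStable (R : Realization p Γ A κ) {r : ℕ}
    (L : Submodule ℤ_[p] (Fin r × κ → ℚ_[p])) : Prop :=
  ∀ γ, ∀ v ∈ L, R.galPow r γ *ᵥ v ∈ L

/-- Two integral structures of `M ^ r` are isomorphic: an automorphism of `M ^ r` maps `L` onto `L'`. -/
def Realization.Isomorphic (R : Realization p Γ A κ) {r : ℕ}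
    (L L' : Submodule ℤ_[p] (Fin r × κ → ℚ_[p])) : Prop :=
  ∃ a : (Matrix (Fin r) (Fin r) A)ˣ,
    (fun v => R.realPow r a *ᵥ v) '' (L : Set (Fin r × κ → ℚ_[p])) = L'

/-- The integral structures of `M ^ r` form finitely many isomorphism classes. -/
def Realization.FiniteIsogenyClass (R : Realization p Γ A κ) (r : ℕ) : Prop :=
  ∃ F : Set (Submodule ℤ_[p] (Fin r × κ → ℚ_[p])), F.Finite ∧
    ∀ L : Submodule ℤ_[p] (Fin r × κ → ℚ_[p]), IsLattice L → R.IsStable L →
      ∃ L' ∈ F, R.Isomorphic L L'

/-- There are at least `k` isomorphism classes of integral structures of `M ⊕ M` between `p ^ n T²` and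
`T²`. -/
def Realization.HasClasses (R : Realization p Γ A κ) (n k : ℕ) : Prop :=
  ∃ L : Fin k → Submodule ℤ_[p] (Fin 2 × κ → ℚ_[p]),
    (∀ i, R.IsStable (L i) ∧
      (∀ v : Fin 2 × κ → ℚ_[p], (∀ x, ‖v x‖ ≤ (p : ℝ) ^ (-(n : ℤ))) → v ∈ L i) ∧
      ∀ v ∈ L i, ∀ x, ‖v x‖ ≤ 1) ∧
    ∀ i j, R.Isomorphic (L i) (L j) → i = j

/-- Faltings' lattices `(T ∩ W) + p ^ n T`. -/
def truncation {ι : Type} [Fintype ι] [DecidableEq ι] (W : Submodule ℚ_[p] (ι → ℚ_[p])) (n : ℕ) :
    Submodule ℤ_[p] (ι → ℚ_[p]) where
  carrier := {v | ∃ w ∈ W, (∀ i, ‖w i‖ ≤ 1) ∧ ∀ i, ‖v i - w i‖ ≤ (p : ℝ) ^ (-(n : ℤ))}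
  add_mem' := (Pool.Agent.Helper95.ISO.trunc W n).add_mem'
  zero_mem' := (Pool.Agent.Helper95.ISO.trunc W n).zero_mem'
  smul_mem' := (Pool.Agent.Helper95.ISO.trunc W n).smul_mem'

/-- **The Tate conjecture with semisimplicity is equivalent to the finiteness of the isogeny class of
`M ⊕ M`, to the failure of linear growth of the number of classes, and to repetitions in Faltings'
sequences.** -/
theorem result [Algebra ℚ A] [FiniteDimensional ℚ A] [IsSemisimpleRing A]
    (R : Realization p Γ A κ) :
    List.TFAE [
      R.TateAndSemisimple,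
      ∀ r, R.FiniteIsogenyClass r,
      R.FiniteIsogenyClass 2,
      ∀ n₀ : ℕ, ∃ n, n₀ ≤ n ∧ ¬ R.HasClasses n (n - n₀),
      ∀ W : Submodule ℚ_[p] (Fin 2 × κ → ℚ_[p]), (∀ γ, ∀ v ∈ W, R.galPow 2 γ *ᵥ v ∈ W) →
        ∀ n₀ : ℕ, ∃ n m, n₀ ≤ n ∧ n < m ∧ R.Isomorphic (truncation W n) (truncation W m)] :=
  Pool.Agent.Helper95.ISO.tfae R.gal R.integral R.real R.injective R.equivariant

end Pool.Agent.Results.MP_3703a7_ag.IsogenyGap
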