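import Pool.Agent.Helper44.TM.Conv

/-!
# The Tate conjecture over infinite extensions

For a field `L` of algebraic numbers let `Tate(L)` be the Tate conjecture for the part of weight zero
of the pure motives over `ℚ`, modulo homological equivalence: the vectors of weight zero of the
`p`-adic realization `V(M)` which are fixed by the Galois group of `L` are combinations of classes of
algebraic cycles over `L`. `Tate(ℚ)` is equivalent to the Tate conjecture over all number fields, the
question Q1 at `p`. We determine the Galois extensions `L` of `ℚ` for which `Tate(L)` follows from it.

Let `K ⊆ L` be fields of algebraic numbers and `L` Galois over `ℚ`, and let `c` be a complex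
conjugation. Then `Tate(L)` holds if and only if `Tate(K)` holds and for every motive `M` of weight
zero `c` commutes on the vectors of `V(M)` fixed by the Galois group of `L` with an open subgroup of
the Galois group of `K`.

It follows that the compositum of a Galois extension `K` of `ℚ` with a number field `F` and with the
maximal CM field `ℚ^tr(i)`, the field generated by `√-1` and all totally real algebraic numbers,
satisfies the Tate conjecture if and only if `K` does. In particular Q1 at `p` is equivalent to
`Tate(ℚ^tr(i))`; the absolute Galois group of this field is free.

The proof: by the Tate conjecture over `ℚ` the representations of weight zero are semisimple, as the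
determinants of their stable subspaces are algebraic (the argument of Moonen), and the commutant of
the Galois group of `ℚ` is spanned by a rational algebra `E` of endomorphisms. Let `U` be the space of
the vectors fixed by the Galois group of `L` and `π` an equivariant projector to `U`. The product `π c`
commutes with the Galois group of a finite extension `F K` of `K`; by `Tate(F K)` it belongs to the
span of the endomorphisms over the algebraic closure. Now `c` is the complex conjugation `F∞` of the
Betti realization. Hence `π` belongs to the span of the left ideal of the `f` in `E` such that `f F∞`
is an endomorphism over the algebraic closure; this ideal is generated by an idempotent `e`. As `e`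
and `e F∞` respect the Hodge decomposition and `F∞` interchanges the types `(a, b)` and `(b, a)`, the
image of `e` has type `(0, 0)`, so its Frobenius elements have integral and bounded traces and the
Galois group acts on it through a finite quotient.
-/

set_option autoImplicit false

namespace Pool.Agent.Results.MP_3703a7_ag.TateOverInfiniteExtensions

open Pool.Agent.Helper44.TM

/-- **The Tate conjecture over infinite extensions.** Let `p` be a prime, `c` a complex conjugation
and `𝓜` a theory of pure motives over `ℚ`.
1. The Tate conjecture over `ℚ` in weight zero is equivalent to the Tate conjecture over all number
fields.
2. Let `K ⊆ L` be fields of algebraic numbers, `L` Galois over `ℚ`. The Tate conjecture over `L` in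
weight zero holds, if and only if it holds over `K` and, for all motives `M` of weight zero, `c`
commutes on the vectors of the realization of `M` fixed by the Galois group of `L` with an open
subgroup of the Galois group of `K`.
3. Let `K` be Galois over `ℚ`, let `F` be a number field and let `L` be any field between `K` and the
compositum of `F`, `K` and the maximal CM field. The Tate conjecture over `L` in weight zero holds,
if and only if it holds over `K`. -/
theorem result (p : ℕ) [Fact p.Prime] (c : GQ) (hc : IsComplexConj c) (𝓜 : Motives p)
    (h : 𝓜.IsTheory c) :
    (𝓜.TateOver ⊥ ↔ 𝓜.TateNumberFields) ∧
    (∀ K L : Sub, Normal ℚ L → K ≤ L →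
      (𝓜.TateOver L ↔ 𝓜.TateOver K ∧ 𝓜.CommuteOver c K L)) ∧
    (∀ K F L : Sub, Normal ℚ K → IsNumberField F → K ≤ L → L ≤ F ⊔ K ⊔ maxCM c →
      (𝓜.TateOver L ↔ 𝓜.TateOver K)) :=
  ⟨tate_bot h, fun K L hL hKL => criterion hc h K L hL hKL,
    fun K F L hK hF hKL hL => adjoin hc h K F L hK hF hKL hL⟩

end Pool.Agent.Results.MP_3703a7_ag.TateOverInfiniteExtensions
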